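import Pool.Agent.H57.EQ.Targets
import Pool.Agent.H68.GC.OLF0

/-!
# Cyclic functions for the injective part
-/

set_option autoImplicit false

namespace Pool.Agent.H55.EQM

open Pool.Agent.H68.BP Pool.Agent.H58.SF Pool.Agent.H53.GC Pool.Agent.H53.NR
open Pool.Agent.H57.EQ
open Function

variable {V X : Type}

theorem cD_symm {c : V → V → Option X} (hc : Col c) (fr : X) (x y : V) :
    cD c fr x y = cD c fr y x := by
  simp only [cD, hc.symm x y]

theorem some_of_ne {c : V → V → Option X} (hc : Col c) (fr : X) {x y : V} (h : x ≠ y) :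
    c x y = some (cD c fr x y) := by
  unfold cD
  cases hxy : c x y with
  | none => exact absurd ((hc.none_iff x y).1 hxy) h
  | some t => rfl

theorem some_of_cD {c : V → V → Option X} (fr : X) {x y : V} (h : cD c fr x y ≠ fr) :
    c x y = some (cD c fr x y) := by
  unfold cD at h ⊢
  cases hxy : c x y with
  | none =>
    rw [hxy] at h
    exact absurd rfl h
  | some t => rfl

/-- realization of the small subsets -/
theorem small {σ : Sig} {𝔸 : Str σ V} {M : ℕ} {c : V → V → Option X} {fr : X} {p n : ℕ}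
    {H : (ZMod p → X × Bool) → X × Bool}
    (hH : IsPoly (template (injS 𝔸) M (cD c fr)) (template (injS 𝔸) M (cD c fr)) H)
    (G : ZMod p → Fin n → V) (m : ℕ) (s : Fin m → Fin n) (hm : m ≤ M)
    (hfr : ∀ i j, i < j → (H (fun l => (cD c fr (G l (s i)) (G l (s j)), false))).1 ≠ fr) :
    ∃ v : Fin m → V, ∀ i j, i < j →
      c (v i) (v j) = some (H (fun l => (cD c fr (G l (s i)) (G l (s j)), false))).1 := by
  classical
  rcases Nat.eq_zero_or_pos m with h0 | hpos
  · subst h0
    exact ⟨fun i => i.elim0, fun i => i.elim0⟩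
  let s' : Fin M → Fin m := fun a => ⟨min (a : ℕ) (m - 1), by omega⟩
  let τ : Fin M → Fin M := fun a => ⟨min (a : ℕ) (m - 1), by omega⟩
  have hsτ : ∀ a, s' (τ a) = s' a := fun a => Fin.ext (by simp [s', τ])
  have hsτ' : ∀ a b, τ a = τ b → s' a = s' b := fun a b h => by
    rw [← hsτ a, ← hsτ b, h]
  have hp := (Pool.Agent.H68.GC.poly_strOn _ _ _).1 hH
    (⟨none, τ⟩ : Sym (sigI σ) M)
    (fun l ab => (cD c fr (G l (s (s' ab.1))) (G l (s (s' ab.2))), decide (ab.1 = ab.2)))
    (fun l => ⟨fun a => G l (s (s' a)), trivial,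
      fun a b hab => by
        have h1 := hsτ' a b hab
        exact congrArg (fun t => G l (s t)) h1,
      fun a b _ => by
        have h1 := hsτ a
        have h2 := hsτ b
        change (cD c fr (G l (s (s' (τ a)))) (G l (s (s' (τ b)))), decide (τ a = τ b)) =
          (cD c fr (G l (s (s' a))) (G l (s (s' b))), decide (τ a = τ b))
        rw [h1, h2]⟩)
  obtain ⟨x, -, -, hx⟩ := hp
  refine ⟨fun i => x ⟨i, lt_of_lt_of_le i.2 hm⟩, fun i j hij => ?_⟩
  have hi : (i : ℕ) < m := i.2
  have hj : (j : ℕ) < m := j.2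
  have hij' : (i : ℕ) < (j : ℕ) := hij
  have hτi : τ ⟨i, lt_of_lt_of_le i.2 hm⟩ = ⟨i, lt_of_lt_of_le i.2 hm⟩ :=
    Fin.ext (by simp only [τ]; omega)
  have hτj : τ ⟨j, lt_of_lt_of_le j.2 hm⟩ = ⟨j, lt_of_lt_of_le j.2 hm⟩ :=
    Fin.ext (by simp only [τ]; omega)
  have hsi : s' ⟨i, lt_of_lt_of_le i.2 hm⟩ = i := Fin.ext (by simp only [s']; omega)
  have hsj : s' ⟨j, lt_of_lt_of_le j.2 hm⟩ = j := Fin.ext (by simp only [s']; omega)
  have h1 := hx ⟨i, lt_of_lt_of_le i.2 hm⟩ ⟨j, lt_of_lt_of_le j.2 hm⟩ (by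
    change τ _ ≤ τ _
    rw [hτi, hτj]
    exact Fin.le_def.2 hij'.le)
  change H (fun l => (cD c fr (G l (s (s' (τ _)))) (G l (s (s' (τ _)))),
    decide (τ _ = τ _))) = _ at h1
  rw [hτi, hτj, hsi, hsj] at h1
  have hne : decide ((⟨i, lt_of_lt_of_le i.2 hm⟩ : Fin M) = ⟨j, lt_of_lt_of_le j.2 hm⟩) = false := by
    rw [decide_eq_false_iff_not, Fin.mk.injEq]
    omega
  rw [hne] at h1
  have h2 := congrArg Prod.fst h1
  change (H (fun l => (cD c fr (G l (s i)) (G l (s j)), false))).1 = cD c fr _ _ at h2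
  have h3 := hfr i j hij
  rw [h2] at h3 ⊢
  exact some_of_cD fr h3

/-- preservation of the relations -/
theorem pres {σ : Sig} [LinearOrder V] {𝔸 : Str σ V} {M : ℕ} {c : V → V → Option X} {fr : X}
    (hs : Stp 𝔸 M c fr) {p n : ℕ} {H : (ZMod p → X × Bool) → X × Bool}
    (hH : IsPoly (template (injS 𝔸) M (cD c fr)) (template (injS 𝔸) M (cD c fr)) H)
    (G : ZMod p → Fin n → V) (hG : ∀ i, Injective (G i)) (ψ : Fin n → V)
    (hψ : ∀ i j, i ≠ j →
      c (ψ i) (ψ j) = some (H (fun l => (cD c fr (G l i) (G l j), false))).1) :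
    ∀ (s0 : SI σ) (sv : Fin s0.2.1 → Fin n), StrictMono sv →
      (∀ i, 𝔸 s0.1 (fun a => G i (sv (s0.2.2 a)))) → 𝔸 s0.1 (fun a => ψ (sv (s0.2.2 a))) := by
  classical
  intro s0
  obtain ⟨i0, rfl⟩ := (Finite.equivFin (SI σ)).symm.surjective s0
  intro sv hsv hA
  have hp := (Pool.Agent.H68.GC.poly_strOn _ _ _).1 hH
    (⟨some i0, id⟩ : Sym (sigI σ) M)
    (fun l ab => (cD c fr (G l (sv ab.1)) (G l (sv ab.2)), decide (ab.1 = ab.2)))
    (fun l => ⟨fun a => G l (sv a), ⟨(hG l).comp hsv.injective, hA l⟩,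
      fun a b hab => by
        have h1 : a = b := hab
        rw [h1],
      fun a b _ => rfl⟩)
  obtain ⟨x, ⟨hxi, hxA⟩, -, hx⟩ := hp
  refine hs.inv _ (fun a => x (((Finite.equivFin (SI σ)).symm i0).2.2 a)) _ hxA (fun a b => ?_)
  have key : ∀ a b : Fin ((Finite.equivFin (SI σ)).symm i0).2.1,
      a < b → c (ψ (sv a)) (ψ (sv b)) = c (x a) (x b) := by
    intro a b hab
    have h1 := hx a b hab.le
    change H (fun l => (cD c fr (G l (sv a)) (G l (sv b)), decide (a = b))) =
      (cD c fr (x a) (x b), decide (a = b)) at h1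
    rw [decide_eq_false hab.ne] at h1
    have h2 := congrArg Prod.fst h1
    rw [hψ _ _ (hsv hab).ne, h2]
    exact (some_of_ne hs.col fr (fun h => hab.ne (hxi h))).symm
  rcases lt_trichotomy (((Finite.equivFin (SI σ)).symm i0).2.2 a)
    (((Finite.equivFin (SI σ)).symm i0).2.2 b) with h | h | h
  · exact key _ _ h
  · simp only [h]
    rw [(hs.col.none_iff _ _).2 rfl, (hs.col.none_iff _ _).2 rfl]
  · rw [hs.col.symm (ψ _) (ψ _), key _ _ h]
    exact hs.col.symm _ _

theorem pf_DDX : T_DDX := by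
  classical
  intro σ V X _ 𝔸 M c fr hs p H hH hcyc
  refine ⟨fun q => ?_, fun W _ G hG => ?_⟩
  · exact congrArg Prod.fst (hcyc (fun i => (q i, false)))
  let n := Nat.card W
  let e : W ≃ Fin n := Finite.equivFin W
  let G' : ZMod p → Fin n → V := fun l i => G l (e.symm i)
  have hG' : ∀ l, Injective (G' l) := fun l => (hG l).comp e.symm.injective
  obtain ⟨ψ0, hmono, hcol⟩ := hs.uni n
    (fun i j => (H (fun l => (cD c fr (G' l i) (G' l j), false))).1)
    (fun m s hm _ hfr => small hH G' m s hm hfr)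
  have hψ0 : ∀ i j, i ≠ j →
      c (ψ0 i) (ψ0 j) = some (H (fun l => (cD c fr (G' l i) (G' l j), false))).1 := by
    intro i j hij
    rcases lt_or_gt_of_ne hij with h | h
    · exact hcol i j h
    · rw [hs.col.symm, hcol j i h]
      refine congrArg (fun t => some (H t).1) ?_
      funext l
      rw [cD_symm hs.col fr]
  refine ⟨fun w => ψ0 (e w), hmono.injective.comp e.injective, fun l z hz => ?_,
    fun u w q hq => ?_⟩
  · let K : Finset (Fin n) := Finset.univ.image (fun a => e (z a))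
    have hKc : K.card ≤ σ.ar l := by
      refine le_trans Finset.card_image_le ?_
      simp
    let sv : Fin K.card → Fin n := K.orderEmbOfFin rfl
    have hsv : StrictMono sv := (K.orderEmbOfFin rfl).strictMono
    have hex : ∀ a : Fin (σ.ar l), ∃ b : Fin K.card, sv b = e (z a) := by
      intro a
      have h1 : e (z a) ∈ K := Finset.mem_image_of_mem _ (Finset.mem_univ a)
      have h2 : e (z a) ∈ Set.range (K.orderEmbOfFin rfl) := by
        rw [Finset.range_orderEmbOfFin]
        exact h1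
      exact h2
    choose ε hε using hex
    have h := pres hs hH G' hG' ψ0 hψ0
      ⟨l, ⟨⟨K.card, by omega⟩, ε⟩⟩ sv hsv (fun i => by
        have h1 := hz i
        have h2 : (fun a => G' i (sv (ε a))) = fun a => G i (z a) := by
          funext a
          change G i (e.symm (sv (ε a))) = _
          rw [hε, e.symm_apply_apply]
        change 𝔸 l (fun a => G' i (sv (ε a)))
        rw [h2]
        exact h1)
    have h3 : (fun a => ψ0 (sv (ε a))) = fun a => ψ0 (e (z a)) := by
      funext a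
      rw [hε]
    change 𝔸 l (fun a => ψ0 (sv (ε a))) at h
    rw [h3] at h
    exact h
  · have huw : u ≠ w := by
      rintro rfl
      have h1 := hq 0
      rw [(hs.col.none_iff _ _).2 rfl] at h1
      exact absurd h1 (by simp)
    have h1 := hψ0 (e u) (e w) (fun h => huw (e.injective h))
    refine h1.trans (congrArg (fun t => some (H t).1) ?_)
    funext l
    change (cD c fr (G l (e.symm (e u))) (G l (e.symm (e w))), false) = (q l, false)
    rw [e.symm_apply_apply, e.symm_apply_apply]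
    unfold cD
    rw [hq l]
    rfl

end Pool.Agent.H55.EQM
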